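import Pool.Agent.Lib.MP_d74bc6_an.D10

/-!
# MP_d74bc6_an: a WLD space with a Lipschitz Gâteaux differentiable bump has a Gâteaux differentiable norm

The problem's own definitions: Corson compact spaces (compact subsets of `[-1,1]^Γ` with countable supports, `Γ` in
any universe), weakly Lindelöf determined spaces (the dual ball with the weak* topology is Corson compact). The
bump is only required to be continuous, and differentiable along all lines at the points where it does not vanish; every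
Lipschitz Gâteaux differentiable bump has these properties.
-/

set_option autoImplicit false

namespace Pool.Agent.Results.MP_d74bc6_an.BumpNorm

universe v

/-- `K` is Corson compact: homeomorphic to a compact set `C ⊆ [-1,1]^Γ` (product topology) all of whose points
have at most countably many nonzero coordinates. -/
def IsCorson (K : Type) [TopologicalSpace K] : Prop :=
  ∃ (Γ : Type v) (C : Set (Γ → ℝ)), IsCompact C ∧ (∀ p ∈ C, ∀ γ, p γ ∈ Set.Icc (-1 : ℝ) 1) ∧
    (∀ p ∈ C, {γ | p γ ≠ 0}.Countable) ∧ Nonempty (K ≃ₜ C)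

/-- The closed unit ball of the dual of `X`, with the weak* topology. -/
def DualBall (X : Type) [NormedAddCommGroup X] [NormedSpace ℝ X] : Set (WeakDual ℝ X) :=
  {φ | ∀ x : X, |φ x| ≤ ‖x‖}

/-- `X` is weakly Lindelöf determined. -/
def IsWLD (X : Type) [NormedAddCommGroup X] [NormedSpace ℝ X] : Prop :=
  IsCorson.{v} (DualBall X)

/-- `f` is Gâteaux differentiable at `x`. -/
def GateauxAt {X : Type} [NormedAddCommGroup X] [NormedSpace ℝ X] (f : X → ℝ) (x : X) : Prop :=
  ∃ L : X →L[ℝ] ℝ, ∀ h : X, HasDerivAt (fun t : ℝ => f (x + t • h)) (L h) 0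

/-- `X` admits a Lipschitz Gâteaux differentiable bump. -/
def HasLipschitzBump (X : Type) [NormedAddCommGroup X] [NormedSpace ℝ X] : Prop :=
  ∃ b : X → ℝ, (∃ K, LipschitzWith K b) ∧ {x | b x ≠ 0}.Nonempty ∧
    Bornology.IsBounded {x | b x ≠ 0} ∧ ∀ x : X, GateauxAt b x

/-- `X` admits a continuous bump which is differentiable in all directions at the points where it is not `0`. -/
def HasWeakBump (X : Type) [NormedAddCommGroup X] [NormedSpace ℝ X] : Prop :=
  ∃ b : X → ℝ, Continuous b ∧ {x | b x ≠ 0}.Nonempty ∧ Bornology.IsBounded {x | b x ≠ 0} ∧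
    ∀ x : X, b x ≠ 0 → ∀ h : X, DifferentiableAt ℝ (fun t : ℝ => b (x + t • h)) 0

/-- `N` is a norm on `X` equivalent to the given one. -/
def IsEquivalentNorm (X : Type) [NormedAddCommGroup X] [NormedSpace ℝ X] (N : Seminorm ℝ X) :
    Prop :=
  ∃ c C : ℝ, 0 < c ∧ ∀ x : X, c * ‖x‖ ≤ N x ∧ N x ≤ C * ‖x‖

/-- `X` admits a Gâteaux differentiable norm: an equivalent norm which is Gâteaux differentiable at every point of
`X` except `0`. -/
def HasGateauxNorm (X : Type) [NormedAddCommGroup X] [NormedSpace ℝ X] : Prop :=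
  ∃ N : Seminorm ℝ X, IsEquivalentNorm X N ∧ ∀ x : X, x ≠ 0 → GateauxAt N x

/-- A Lipschitz Gâteaux differentiable bump is a bump in the weaker sense. -/
theorem HasLipschitzBump.weak {X : Type} [NormedAddCommGroup X] [NormedSpace ℝ X]
    (h : HasLipschitzBump X) : HasWeakBump X := by
  obtain ⟨b, ⟨K, hK⟩, hne, hbd, hd⟩ := h
  refine ⟨b, hK.continuous, hne, hbd, fun x _ h => ?_⟩
  obtain ⟨L, hL⟩ := hd x
  exact (hL h).differentiableAt

/-- The index set may be taken in `Type`. -/
theorem lower_index (X : Type) [NormedAddCommGroup X] [NormedSpace ℝ X] (h : IsWLD.{v} X) :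
    ∃ (Γ : Type) (f : {φ : WeakDual ℝ X // ∀ x : X, |φ x| ≤ ‖x‖} → (Γ → ℝ)),
      Topology.IsEmbedding f ∧ ∀ φ, {γ : Γ | f φ γ ≠ 0}.Countable := by
  obtain ⟨Γ, C, hC, _, hcs, ⟨e⟩⟩ := h
  -- the coordinate functions on the dual ball
  let co : Γ → (DualBall X → ℝ) := fun γ φ => (e φ : Γ → ℝ) γ
  let g : DualBall X → (Set.range co → ℝ) := fun φ c => (c : DualBall X → ℝ) φ
  have : CompactSpace C := isCompact_iff_compactSpace.1 hC
  have : CompactSpace (DualBall X) := e.symm.compactSpace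
  have hcont : Continuous g := by
    apply continuous_pi
    rintro ⟨c, γ, rfl⟩
    show Continuous (fun φ => (e φ : Γ → ℝ) γ)
    exact (continuous_apply γ).comp (continuous_subtype_val.comp e.continuous)
  have hinj : Function.Injective g := by
    intro φ φ' hφ
    apply e.injective
    apply Subtype.ext
    funext γ
    exact congrFun hφ ⟨co γ, γ, rfl⟩
  refine ⟨Set.range co, g, (hcont.isClosedEmbedding hinj).isEmbedding, ?_⟩
  intro φ
  have h1 : {c : Set.range co | g φ c ≠ 0} ⊆
      (fun γ => (⟨co γ, γ, rfl⟩ : Set.range co)) '' {γ | (e φ : Γ → ℝ) γ ≠ 0} := by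
    rintro ⟨c, γ, rfl⟩ hc
    exact ⟨γ, hc, rfl⟩
  exact ((hcs _ (e φ).2).image _).mono h1

/-- The function `1 / b ^ 2` for a bump in the weaker sense. -/
theorem bump_of {X : Type} [NormedAddCommGroup X] [NormedSpace ℝ X] (h : HasWeakBump X) :
    ∃ (Ω : Set X) (ψ : X → ℝ) (R : ℝ), Pool.Agent.D7.Bump Ω ψ R := by
  obtain ⟨b, hbc, ⟨x₀, hx₀⟩, hb, hd⟩ := h
  have hc : Continuous (fun y : X => b (y + x₀)) := hbc.comp (by fun_prop)
  obtain ⟨R₀, hR₀⟩ := isBounded_iff_forall_norm_le.1 hb
  refine ⟨{y | b (y + x₀) ≠ 0}, fun y => 1 / (b (y + x₀)) ^ 2, |R₀| + ‖x₀‖ + 1,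
    ?_, ?_, ?_, ?_, ?_, ?_, ?_, ?_⟩
  · positivity
  · show b (0 + x₀) ≠ 0
    rwa [zero_add]
  · exact isOpen_ne.preimage hc
  · intro y hy
    have h1 : ‖y + x₀‖ ≤ R₀ := hR₀ _ hy
    have h2 : ‖y‖ ≤ ‖y + x₀‖ + ‖x₀‖ := by
      have h3 := norm_sub_le (y + x₀) x₀
      rwa [add_sub_cancel_right] at h3
    have h4 := le_abs_self R₀
    linarith
  · intro y
    positivity
  · refine ContinuousOn.div continuousOn_const (hc.pow 2).continuousOn ?_
    intro y hy
    exact pow_ne_zero 2 hy
  · intro C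
    by_cases hC : 0 < C
    · have h1 : {y : X | y ∈ {y : X | b (y + x₀) ≠ 0} ∧ 1 / (b (y + x₀)) ^ 2 ≤ C} =
          {y : X | 1 / C ≤ (b (y + x₀)) ^ 2} := by
        ext y
        simp only [Set.mem_ofPred_eq]
        constructor
        · rintro ⟨h2, h3⟩
          have h4 : 0 < (b (y + x₀)) ^ 2 := by positivity
          rw [div_le_iff₀ h4] at h3
          rw [div_le_iff₀ hC]
          linarith
        · intro h2
          have h5 : 0 < (b (y + x₀)) ^ 2 := lt_of_lt_of_le (by positivity) h2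
          refine ⟨fun h6 => ?_, ?_⟩
          · rw [h6] at h5
            norm_num at h5
          · rw [div_le_iff₀ hC] at h2
            rw [div_le_iff₀ h5]
            linarith
      rw [h1]
      exact isClosed_le continuous_const (hc.pow 2)
    · have h1 : {y : X | y ∈ {y : X | b (y + x₀) ≠ 0} ∧ 1 / (b (y + x₀)) ^ 2 ≤ C} = ∅ := by
        ext y
        simp only [Set.mem_ofPred_eq, Set.mem_empty_iff_false, iff_false, not_and, not_le]
        intro h2
        have h4 : 0 < 1 / (b (y + x₀)) ^ 2 := by positivity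
        linarith
      rw [h1]
      exact isClosed_empty
  · intro y hy v
    have h1 := (hd (y + x₀) hy v).hasDerivAt
    have h2 : (fun t : ℝ => b (y + x₀ + t • v)) = fun t : ℝ => b (y + t • v + x₀) := by
      funext t
      congr 1
      abel
    rw [h2] at h1
    have h3 : b (y + (0 : ℝ) • v + x₀) ≠ 0 := by
      rw [zero_smul, add_zero]
      exact hy
    have h4 := (h1.pow 2).inv (pow_ne_zero 2 h3)
    refine ⟨_, h4.congr_of_eventuallyEq (Filter.Eventually.of_forall fun t => ?_)⟩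
    show 1 / (b (y + t • v + x₀)) ^ 2 = ((b (y + t • v + x₀)) ^ 2)⁻¹
    rw [one_div]

/-- The hard implication. -/
theorem norm_of_bump (X : Type) [NormedAddCommGroup X] [NormedSpace ℝ X] [CompleteSpace X]
    (hX : IsWLD.{v} X) (hb : HasWeakBump X) : HasGateauxNorm X := by
  obtain ⟨Γ, f, hf, hcs⟩ := lower_index X hX
  obtain ⟨Ω, ψ, R, hB⟩ := bump_of hb
  let Φ : Pool.Agent.D7.KB X → Γ → ℝ := fun φ γ => f φ γ - f (Pool.Agent.D7.zeroKB X) γ
  have hc : Continuous Φ := by
    have h1 : Continuous f := hf.continuous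
    have h2 : Φ = fun φ => f φ - f (Pool.Agent.D7.zeroKB X) := rfl
    rw [h2]
    exact h1.sub continuous_const
  have hi : Function.Injective Φ := by
    intro φ φ' h
    apply hf.injective
    funext γ
    have h3 : f φ γ - f (Pool.Agent.D7.zeroKB X) γ = f φ' γ - f (Pool.Agent.D7.zeroKB X) γ :=
      congrFun h γ
    linarith
  have h0 : Φ (Pool.Agent.D7.zeroKB X) = 0 := by
    funext γ
    exact sub_self _
  have hcs' : ∀ k, {γ | Φ k γ ≠ 0}.Countable := by
    intro k
    refine ((hcs k).union (hcs (Pool.Agent.D7.zeroKB X))).mono ?_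
    intro γ hγ
    by_contra hcon
    simp only [Set.mem_union, Set.mem_ofPred_eq, not_or, not_not] at hcon
    apply hγ
    show f k γ - f (Pool.Agent.D7.zeroKB X) γ = 0
    rw [hcon.1, hcon.2, sub_zero]
  obtain ⟨P, hP, h1, h2, h3⟩ := Pool.Agent.D7.fi3_unique Φ hc hi h0 hcs' hB
  obtain ⟨N, hadd, hsmul, ⟨a, c, ha, _, hac⟩, hG⟩ := Pool.Agent.D7.exists_norm P hP h1 h2 h3
  refine ⟨Seminorm.of N hadd (fun t f => by rw [hsmul, Real.norm_eq_abs]), ⟨a, c, ha, hac⟩, ?_⟩
  intro x hx
  exact hG x hx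

/-- The function `max 0 s ^ 2` is differentiable. -/
theorem hasDerivAt_sq_pos (s : ℝ) : HasDerivAt (fun s : ℝ => (max 0 s) ^ 2) (2 * max 0 s) s := by
  rcases lt_trichotomy s 0 with h | h | h
  · have h1 : (fun s : ℝ => (max 0 s) ^ 2) =ᶠ[nhds s] fun _ => (0 : ℝ) := by
      filter_upwards [gt_mem_nhds h] with t ht
      rw [max_eq_left ht.le]
      norm_num
    rw [max_eq_left h.le, mul_zero]
    exact (hasDerivAt_const s (0 : ℝ)).congr_of_eventuallyEq h1
  · subst h
    rw [max_self, mul_zero, hasDerivAt_iff_tendsto_slope_zero]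
    have h1 : Filter.Tendsto (fun t : ℝ => max 0 t) (nhdsWithin 0 {0}ᶜ) (nhds 0) := by
      have h2 : Continuous (fun t : ℝ => max 0 t) := by fun_prop
      have h3 := h2.tendsto 0
      rw [max_self] at h3
      exact h3.mono_left nhdsWithin_le_nhds
    refine h1.congr' ?_
    filter_upwards [self_mem_nhdsWithin] with t ht
    have ht0 : t ≠ 0 := ht
    rcases le_total 0 t with h4 | h4
    · rw [zero_add, max_self, max_eq_right h4, smul_eq_mul]
      field_simp
      ring
    · rw [zero_add, max_self, max_eq_left h4]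
      simp
  · have h1 : (fun s : ℝ => (max 0 s) ^ 2) =ᶠ[nhds s] fun s => s ^ 2 := by
      filter_upwards [lt_mem_nhds h] with t ht
      rw [max_eq_right (le_of_lt ht)]
    rw [max_eq_right h.le]
    have h2 := (hasDerivAt_pow 2 s).congr_of_eventuallyEq h1
    simpa using h2

/-- The easy implication (known). -/
theorem bump_of_norm {X : Type} [NormedAddCommGroup X] [NormedSpace ℝ X]
    (h : HasGateauxNorm X) : HasLipschitzBump X := by
  obtain ⟨N, ⟨c, C, hc, hcC⟩, hG⟩ := h
  have hsq : ∀ x : X, ∃ L : X →L[ℝ] ℝ, ∀ h : X,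
      HasDerivAt (fun t : ℝ => N (x + t • h) ^ 2) (L h) 0 := by
    intro x
    by_cases hx : x = 0
    · refine ⟨0, fun h => ?_⟩
      have h1 : (fun t : ℝ => N (x + t • h) ^ 2) = fun t => t ^ 2 * N h ^ 2 := by
        funext t
        rw [hx, zero_add, map_smul_eq_mul, mul_pow, Real.norm_eq_abs, sq_abs]
      rw [h1]
      have h2 := (hasDerivAt_pow 2 (0 : ℝ)).mul_const (N h ^ 2)
      simpa using h2
    · obtain ⟨L, hL⟩ := hG x hx
      refine ⟨(2 * N x) • L, fun h => ?_⟩
      have h2 : HasDerivAt (fun t : ℝ => N (x + t • h) ^ 2)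
          (((2 : ℕ) : ℝ) * N (x + (0 : ℝ) • h) ^ (2 - 1) * L h) 0 := (hL h).pow 2
      simpa using h2
  have hcut : ∀ x : X, (max 0 (1 - N x ^ 2)) ^ 2 = (1 - (min (N x) 1) ^ 2) ^ 2 := by
    intro x
    have h0 : 0 ≤ N x := apply_nonneg N x
    rcases le_total (N x) 1 with h1 | h1
    · rw [min_eq_left h1, max_eq_right (by nlinarith)]
    · rw [min_eq_right h1, max_eq_left (by nlinarith)]
      norm_num
  refine ⟨fun x => (max 0 (1 - N x ^ 2)) ^ 2, ⟨Real.toNNReal (4 * C), ?_⟩, ⟨0, ?_⟩, ?_, ?_⟩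
  · apply LipschitzWith.of_dist_le'
    intro x y
    rw [hcut x, hcut y, Real.dist_eq, dist_eq_norm]
    have hx0 : 0 ≤ N x := apply_nonneg N x
    have hy0 : 0 ≤ N y := apply_nonneg N y
    have h1 : |min (N x) 1 - min (N y) 1| ≤ C * ‖x - y‖ := by
      refine (abs_min_sub_min_le_max _ _ _ _).trans ?_
      rw [sub_self, abs_zero]
      refine max_le ((abs_sub_map_le_sub N x y).trans (hcC (x - y)).2) ?_
      exact le_trans (apply_nonneg N (x - y)) (hcC (x - y)).2
    obtain ⟨u, hu⟩ : ∃ u, u = min (N x) 1 := ⟨_, rfl⟩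
    obtain ⟨w, hw⟩ : ∃ w, w = min (N y) 1 := ⟨_, rfl⟩
    rw [← hu, ← hw] at h1 ⊢
    have hu0 : 0 ≤ u := by rw [hu]; exact le_min hx0 zero_le_one
    have hw0 : 0 ≤ w := by rw [hw]; exact le_min hy0 zero_le_one
    have hu1 : u ≤ 1 := by rw [hu]; exact min_le_right _ _
    have hw1 : w ≤ 1 := by rw [hw]; exact min_le_right _ _
    have h2 : (1 - u ^ 2) ^ 2 - (1 - w ^ 2) ^ 2 = (u - w) * ((u + w) * (u ^ 2 + w ^ 2 - 2)) := by
      ring
    rw [h2, abs_mul]
    have h3 : |(u + w) * (u ^ 2 + w ^ 2 - 2)| ≤ 4 := by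
      rw [abs_le]
      constructor
      · nlinarith
      · nlinarith
    calc |u - w| * |(u + w) * (u ^ 2 + w ^ 2 - 2)| ≤ (C * ‖x - y‖) * 4 :=
          mul_le_mul h1 h3 (abs_nonneg _) ((abs_nonneg _).trans h1)
      _ = 4 * C * ‖x - y‖ := by ring
  · show (max 0 (1 - N (0 : X) ^ 2)) ^ 2 ≠ 0
    rw [map_zero]
    norm_num
  · rw [isBounded_iff_forall_norm_le]
    refine ⟨1 / c, fun x hx => ?_⟩
    have hx' : (max 0 (1 - N x ^ 2)) ^ 2 ≠ 0 := hx
    rw [le_div_iff₀ hc]
    by_contra hcon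
    push Not at hcon
    apply hx'
    have h1 := (hcC x).1
    rw [max_eq_left (by nlinarith)]
    norm_num
  · intro x
    obtain ⟨L, hL⟩ := hsq x
    refine ⟨(-(2 * max 0 (1 - N x ^ 2))) • L, fun h => ?_⟩
    have h1 : HasDerivAt (fun t : ℝ => 1 - N (x + t • h) ^ 2) (-(L h)) 0 := by
      simpa using (hL h).const_sub 1
    have h2 := (hasDerivAt_sq_pos (1 - N (x + (0 : ℝ) • h) ^ 2)).comp (0 : ℝ) h1
    have h3 : (2 * max 0 (1 - N (x + (0 : ℝ) • h) ^ 2)) * (-(L h)) =
        ((-(2 * max 0 (1 - N x ^ 2))) • L) h := by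
      rw [zero_smul, add_zero]
      simp
    rw [h3] at h2
    exact h2

/-- **Theorem.** For a weakly Lindelöf determined Banach space the following are equivalent: there is a Lipschitz
Gâteaux differentiable bump; there is a continuous bump which is differentiable in all directions at the points
where it is not `0`; there is an equivalent norm which is Gâteaux differentiable at every point except `0`. -/
theorem result (X : Type) [NormedAddCommGroup X] [NormedSpace ℝ X] [CompleteSpace X]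
    (hX : IsWLD.{v} X) :
    List.TFAE [HasLipschitzBump X, HasWeakBump X, HasGateauxNorm X] := by
  tfae_have 1 → 2 := HasLipschitzBump.weak
  tfae_have 2 → 3 := norm_of_bump X hX
  tfae_have 3 → 1 := bump_of_norm
  tfae_finish

end Pool.Agent.Results.MP_d74bc6_an.BumpNorm
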